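import Mathlib

set_option autoImplicit false

/-!
# Coefficients of ternary cyclotomic polynomials

For primes `p < q < r` the coefficient of `x ^ n` in `Φ_{pqr}` is
`∑_{s ≤ n / r} a s * c (n - r s)` where `a s` is the coefficient of `Φ_{pq}` and `c` is the
`pq`-periodic function equal to `1` on `[0,p)` and `-1` on `[q, q+p)`.
-/

namespace Pool.Agent.Helper8.Tern

open Polynomial Finset

/-- number of `l < p` with `l q ≤ s` and `p ∣ s - l q` -/
def ee (p q s : ℕ) : ℤ := ∑ l ∈ range p, if l * q ≤ s ∧ p ∣ s - l * q then 1 else 0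

/-- the periodic two-window function -/
def cc (p q m : ℕ) : ℤ :=
  (if m % (p * q) < p then 1 else 0) - (if q ≤ m % (p * q) ∧ m % (p * q) < q + p then 1 else 0)

theorem cyc_pq {p q : ℕ} (hp : p.Prime) (hq : q.Prime) (hpq : p ≠ q) :
    cyclotomic (p * q) ℤ * (X ^ p - 1) = (X - 1) * ∑ l ∈ range p, X ^ (l * q) := by
  have := Fact.mk hp
  have h1 : expand ℤ q (cyclotomic p ℤ) = cyclotomic (p * q) ℤ * cyclotomic p ℤ :=
    cyclotomic_expand_eq_cyclotomic_mul hq (fun h => hpq ((Nat.prime_dvd_prime_iff_eq hq hp).1 h).symm) ℤ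
  have h2 := cyclotomic_prime_mul_X_sub_one ℤ p
  have h3 : expand ℤ q (cyclotomic p ℤ) = ∑ l ∈ range p, X ^ (l * q) := by
    rw [cyclotomic_prime, map_sum]
    refine sum_congr rfl fun l _ => ?_
    rw [map_pow, expand_X, ← pow_mul, mul_comm]
  rw [← h2, ← mul_assoc, ← h1, h3]
  ring

theorem cyc_pqr {p q r : ℕ} (hp : p.Prime) (hq : q.Prime) (hr : r.Prime) (hpq : p ≠ q)
    (hpr : p ≠ r) (hqr : q ≠ r) :
    cyclotomic (p * q * r) ℤ * (X ^ (p * q) - 1) =
      expand ℤ r (cyclotomic (p * q) ℤ) * (∑ i ∈ range p, X ^ i) * (X ^ q - 1) := by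
  have h1 := cyc_pq hp hq hpq
  have hdiv : ¬ r ∣ p * q := by
    intro h
    rcases (Nat.Prime.dvd_mul hr).1 h with h | h
    · exact hpr ((Nat.prime_dvd_prime_iff_eq hr hp).1 h).symm
    · exact hqr ((Nat.prime_dvd_prime_iff_eq hr hq).1 h).symm
  have h2 : expand ℤ r (cyclotomic (p * q) ℤ) = cyclotomic (p * q * r) ℤ * cyclotomic (p * q) ℤ :=
    cyclotomic_expand_eq_cyclotomic_mul hr hdiv ℤ
  have h3 : (∑ l ∈ range p, (X : ℤ[X]) ^ (l * q)) * (X ^ q - 1) = X ^ (p * q) - 1 := by
    have := geom_sum_mul ((X : ℤ[X]) ^ q) p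
    simp only [← pow_mul] at this
    rw [mul_comm q p] at this
    rw [← this]
    congr 1
    refine sum_congr rfl fun l _ => by rw [mul_comm]
  have h4 : (∑ i ∈ range p, (X : ℤ[X]) ^ i) * (X - 1) = X ^ p - 1 := geom_sum_mul X p
  have hX : (X - 1 : ℤ[X]) ≠ 0 := X_sub_C_ne_zero (R := ℤ) 1
  apply mul_right_cancel₀ hX
  calc cyclotomic (p * q * r) ℤ * (X ^ (p * q) - 1) * (X - 1)
      = cyclotomic (p * q * r) ℤ * ((X - 1) * ∑ l ∈ range p, X ^ (l * q)) * (X ^ q - 1) := by
        rw [← h3]; ring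
    _ = cyclotomic (p * q * r) ℤ * (cyclotomic (p * q) ℤ * (X ^ p - 1)) * (X ^ q - 1) := by
        rw [h1]
    _ = (cyclotomic (p * q * r) ℤ * cyclotomic (p * q) ℤ) * (X ^ p - 1) * (X ^ q - 1) := by ring
    _ = expand ℤ r (cyclotomic (p * q) ℤ) * ((∑ i ∈ range p, X ^ i) * (X - 1)) * (X ^ q - 1) := by
        rw [h2, h4]
    _ = _ := by ring

/-- A power series identity from a periodicity recursion. -/
theorem ps_cancel {A B C G : PowerSeries ℤ} {M : ℕ} (hM : 0 < M)
    (h1 : A * (1 - PowerSeries.X ^ M) = B * G) (h2 : C * (1 - PowerSeries.X ^ M) = G) :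
    A = B * C := by
  have hne : (1 - PowerSeries.X ^ M : PowerSeries ℤ) ≠ 0 := by
    intro h
    have := congrArg (PowerSeries.coeff 0) h
    simp [zero_pow hM.ne'] at this
  apply mul_right_cancel₀ hne
  rw [h1, mul_assoc, h2]

theorem coeff_mul_one_sub (C : PowerSeries ℤ) (M n : ℕ) :
    PowerSeries.coeff n (C * (1 - PowerSeries.X ^ M)) =
      PowerSeries.coeff n C - if M ≤ n then PowerSeries.coeff (n - M) C else 0 := by
  rw [mul_sub, mul_one, map_sub, PowerSeries.coeff_mul_X_pow']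

theorem ee_rec {p q : ℕ} (hp : 0 < p) (s : ℕ) :
    ee p q s - (if p ≤ s then ee p q (s - p) else 0) =
      ∑ l ∈ range p, if s = l * q then 1 else 0 := by
  by_cases hs : p ≤ s
  · rw [if_pos hs, ee, ee, ← sum_sub_distrib]
    refine sum_congr rfl fun l _ => ?_
    by_cases h1 : l * q ≤ s ∧ p ∣ s - l * q
    · rw [if_pos h1]
      by_cases h2 : s = l * q
      · rw [if_pos h2, if_neg]
        · simp
        · rintro ⟨h3, -⟩
          omega
      · rw [if_neg h2, if_pos]
        · simp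
        · obtain ⟨h3, h4⟩ := h1
          obtain ⟨k, hk⟩ := h4
          have hk0 : 0 < k := by
            rcases Nat.eq_zero_or_pos k with h | h
            · subst h
              simp at hk
              omega
            · exact h
          obtain ⟨j, rfl⟩ : ∃ j, k = j + 1 := ⟨k - 1, by omega⟩
          have h5 : p * (j + 1) = p * j + p := by ring
          refine ⟨by omega, ⟨j, by omega⟩⟩
    · rw [if_neg h1, if_neg, if_neg]
      · simp
      · rintro rfl
        exact h1 ⟨le_rfl, by simp⟩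
      · rintro ⟨h3, k, hk⟩
        apply h1
        refine ⟨by omega, k + 1, ?_⟩
        have h5 : p * (k + 1) = p * k + p := by ring
        omega
  · rw [if_neg hs, sub_zero, ee]
    refine sum_congr rfl fun l _ => ?_
    by_cases h2 : s = l * q
    · rw [if_pos h2, if_pos]
      exact ⟨h2.ge, by simp [h2]⟩
    · rw [if_neg h2, if_neg]
      rintro ⟨h3, k, hk⟩
      have : k = 0 := by
        by_contra h
        have : p * 1 ≤ p * k := Nat.mul_le_mul_left _ (by omega)
        omega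
      subst this
      simp at hk
      omega

theorem coeff_geom (p q n : ℕ) :
    (∑ l ∈ range p, (X : ℤ[X]) ^ (l * q)).coeff n = ∑ l ∈ range p, if n = l * q then 1 else 0 := by
  rw [finsetSum_coeff]
  refine sum_congr rfl fun l _ => ?_
  rw [coeff_X_pow]

/-- coefficient of `Φ_{pq}` -/
theorem coeff_pq {p q : ℕ} (hp : p.Prime) (hq : q.Prime) (hpq : p ≠ q) (s : ℕ) :
    (cyclotomic (p * q) ℤ).coeff s = ee p q s - if s = 0 then 0 else ee p q (s - 1) := by
  let E : PowerSeries ℤ := PowerSeries.mk (ee p q)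
  have hE : E * (1 - PowerSeries.X ^ p) =
      ((∑ l ∈ range p, (X : ℤ[X]) ^ (l * q) : ℤ[X]) : PowerSeries ℤ) := by
    ext n
    rw [coeff_mul_one_sub, PowerSeries.coeff_mk, PowerSeries.coeff_mk, Polynomial.coeff_coe,
      coeff_geom, ee_rec hp.pos]
  have h1 := cyc_pq hp hq hpq
  have h2 : ((cyclotomic (p * q) ℤ : ℤ[X]) : PowerSeries ℤ) * (1 - PowerSeries.X ^ p) =
      (1 - PowerSeries.X) *
        ((∑ l ∈ range p, (X : ℤ[X]) ^ (l * q) : ℤ[X]) : PowerSeries ℤ) := by
    have h3 := congrArg (fun f : ℤ[X] => (f : PowerSeries ℤ)) h1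
    simp only [Polynomial.coe_mul, Polynomial.coe_sub, Polynomial.coe_pow, Polynomial.coe_X,
      Polynomial.coe_one] at h3
    linear_combination -h3
  have h3 := ps_cancel hp.pos h2 hE
  have h4 := congrArg (PowerSeries.coeff s) h3
  rw [Polynomial.coeff_coe] at h4
  rw [h4, mul_comm]
  have h5 := coeff_mul_one_sub E 1 s
  rw [pow_one] at h5
  rw [h5, PowerSeries.coeff_mk, PowerSeries.coeff_mk]
  congr 1
  by_cases hs : s = 0
  · subst hs; simp
  · rw [if_pos (by omega), if_neg hs]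

theorem cc_rec {p q : ℕ} (hp : 2 ≤ p) (hq : p < q) (m : ℕ) :
    cc p q m - (if p * q ≤ m then cc p q (m - p * q) else 0) =
      (if m < p then 1 else 0) - (if q ≤ m ∧ m < q + p then 1 else 0) := by
  have hM : q + p ≤ p * q := by nlinarith
  by_cases hm : p * q ≤ m
  · rw [if_pos hm]
    have h1 : (m - p * q) % (p * q) = m % (p * q) := by
      rw [Nat.mod_eq_sub_mod hm]
    rw [cc, cc, h1, if_neg (show ¬ m < p by omega), if_neg (show ¬ (q ≤ m ∧ m < q + p) by omega)]
    ring
  · rw [if_neg hm, cc, Nat.mod_eq_of_lt (by omega), sub_zero]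

theorem coeff_window (p q m : ℕ) (_ : p < q) :
    ((∑ i ∈ range p, (X : ℤ[X]) ^ i) * (1 - X ^ q)).coeff m =
      (if m < p then 1 else 0) - (if q ≤ m ∧ m < q + p then 1 else 0) := by
  have h1 : ∀ k, (∑ i ∈ range p, (X : ℤ[X]) ^ i).coeff k = if k < p then 1 else 0 := by
    intro k
    rw [finsetSum_coeff]
    simp only [coeff_X_pow]
    rw [sum_ite_eq]
    simp
  rw [mul_sub, mul_one, coeff_sub, coeff_mul_X_pow', h1, h1]
  congr 1
  by_cases h : q ≤ m
  · rw [if_pos h]
    by_cases h2 : m < q + p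
    · rw [if_pos (by omega), if_pos ⟨h, h2⟩]
    · rw [if_neg (by omega), if_neg (by omega)]
  · rw [if_neg h, if_neg (by omega)]

/-- coefficient of `Φ_{pqr}`, as a sum over the antidiagonal -/
theorem coeff_pqr_aux {p q r : ℕ} (hp : p.Prime) (hq : q.Prime) (hr : r.Prime) (hpq : p < q)
    (hqr : q < r) (n : ℕ) :
    (cyclotomic (p * q * r) ℤ).coeff n =
      ∑ i ∈ range (n + 1), (if r ∣ i then (cyclotomic (p * q) ℤ).coeff (i / r) else 0) *
        cc p q (n - i) := by
  let C : PowerSeries ℤ := PowerSeries.mk (cc p q)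
  let G : ℤ[X] := (∑ i ∈ range p, (X : ℤ[X]) ^ i) * (1 - X ^ q)
  have hC : C * (1 - PowerSeries.X ^ (p * q)) = (G : PowerSeries ℤ) := by
    ext m
    rw [coeff_mul_one_sub, PowerSeries.coeff_mk, PowerSeries.coeff_mk, Polynomial.coeff_coe,
      coeff_window p q m hpq, cc_rec hp.two_le hpq]
  have h1 := cyc_pqr hp hq hr hpq.ne (hpq.trans hqr).ne hqr.ne
  have h2 : ((cyclotomic (p * q * r) ℤ : ℤ[X]) : PowerSeries ℤ) * (1 - PowerSeries.X ^ (p * q)) =
      ((expand ℤ r (cyclotomic (p * q) ℤ) : ℤ[X]) : PowerSeries ℤ) * (G : PowerSeries ℤ) := by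
    have h3 := congrArg (fun f : ℤ[X] => (f : PowerSeries ℤ)) h1
    simp only [Polynomial.coe_mul, Polynomial.coe_sub, Polynomial.coe_pow, Polynomial.coe_X,
      Polynomial.coe_one] at h3
    simp only [G, Polynomial.coe_mul, Polynomial.coe_sub, Polynomial.coe_pow, Polynomial.coe_X,
      Polynomial.coe_one]
    linear_combination -h3
  have h3 := ps_cancel (Nat.mul_pos hp.pos hq.pos) h2 hC
  have h4 := congrArg (PowerSeries.coeff n) h3
  rw [Polynomial.coeff_coe, PowerSeries.coeff_mul,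
    Finset.Nat.sum_antidiagonal_eq_sum_range_succ_mk] at h4
  rw [h4]
  refine sum_congr rfl fun i _ => ?_
  rw [Polynomial.coeff_coe, coeff_expand hr.pos, PowerSeries.coeff_mk]

/-- coefficient of `Φ_{pqr}` at `r N + i` -/
theorem coeff_pqr {p q r : ℕ} (hp : p.Prime) (hq : q.Prime) (hr : r.Prime) (hpq : p < q)
    (hqr : q < r) (N i : ℕ) (hi : i < r) :
    (cyclotomic (p * q * r) ℤ).coeff (r * N + i) =
      ∑ t ∈ range (N + 1), (cyclotomic (p * q) ℤ).coeff (N - t) * cc p q (r * t + i) := by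
  rw [coeff_pqr_aux hp hq hr hpq hqr]
  have h1 : ∑ j ∈ range (r * N + i + 1),
      (if r ∣ j then (cyclotomic (p * q) ℤ).coeff (j / r) else 0) * cc p q (r * N + i - j) =
      ∑ j ∈ (range (N + 1)).image (fun s => r * s),
      (if r ∣ j then (cyclotomic (p * q) ℤ).coeff (j / r) else 0) * cc p q (r * N + i - j) := by
    symm
    apply sum_subset
    · intro j hj
      rw [mem_image] at hj
      obtain ⟨s, hs, rfl⟩ := hj
      rw [mem_range] at hs ⊢
      have : r * s ≤ r * N := Nat.mul_le_mul_left _ (by omega)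
      omega
    · intro j hj hj2
      rw [if_neg, zero_mul]
      rintro ⟨s, rfl⟩
      apply hj2
      rw [mem_image]
      refine ⟨s, ?_, rfl⟩
      rw [mem_range] at hj ⊢
      by_contra h
      have : r * (N + 1) ≤ r * s := Nat.mul_le_mul_left _ (by omega)
      have : r * (N + 1) = r * N + r := by ring
      omega
  rw [h1, sum_image (fun a _ b _ h => Nat.eq_of_mul_eq_mul_left hr.pos h), ← sum_range_reflect]
  refine sum_congr rfl fun t ht => ?_
  rw [mem_range] at ht
  have h2 : N + 1 - 1 - t = N - t := by omega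
  rw [h2, if_pos (dvd_mul_right _ _), Nat.mul_div_cancel_left _ hr.pos]
  congr 2
  obtain ⟨u, rfl⟩ : ∃ u, N = u + t := ⟨N - t, by omega⟩
  have : u + t - t = u := by omega
  rw [this]
  have : r * (u + t) = r * u + r * t := by ring
  omega

end Pool.Agent.Helper8.Tern
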