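import Mathlib

set_option autoImplicit false

/-!
# A balance lemma in `ZMod p`

`ff V e t y` counts the pairs `(l, i)`, `l < V`, `i < e` with `l t + i = y`.  If `V e = ± 1`,
`e ≠ 0, ± 1`, `t ≠ 0` and `ff` takes at most two consecutive values then `V t = ± 1`.
-/

namespace Pool.Agent.Helper8.Tern

open Finset

variable {p : ℕ} [hp : Fact p.Prime]

/-- indicator -/
def ind (x y : ZMod p) : ℤ := if x = y then 1 else 0

/-- number of `l < V` with `l t = y` -/
def GG (V : ℕ) (t y : ZMod p) : ℤ := ∑ l ∈ range V, ind ((l : ZMod p) * t) y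

/-- number of `(l, i)`, `l < V`, `i < e`, with `l t + i = y` -/
def ff (V e : ℕ) (t y : ZMod p) : ℤ :=
  ∑ l ∈ range V, ∑ i ∈ range e, ind ((l : ZMod p) * t + (i : ZMod p)) y

theorem ind_sub (x y z : ZMod p) : ind x (y - z) = ind (x + z) y := by
  unfold ind
  congr 1
  rw [eq_sub_iff_add_eq]

theorem ff_step (V e : ℕ) (t y : ZMod p) :
    ff V e t y - ff V e t (y - 1) = GG V t y - GG V t (y - e) := by
  unfold ff GG
  rw [← sum_sub_distrib, ← sum_sub_distrib]
  refine sum_congr rfl fun l _ => ?_
  rw [← sum_sub_distrib]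
  have h : ∀ i : ℕ, ind ((l : ZMod p) * t + (i : ZMod p)) y - ind ((l : ZMod p) * t + (i : ZMod p)) (y - 1) =
      ind ((l : ZMod p) * t + (i : ZMod p)) y - ind ((l : ZMod p) * t + ((i + 1 : ℕ) : ZMod p)) y := by
    intro i
    rw [ind_sub]
    push_cast
    rw [add_assoc]
  rw [sum_congr rfl (fun i _ => h i),
    sum_range_sub' (fun i : ℕ => ind ((l : ZMod p) * t + (i : ZMod p)) y)]
  rw [ind_sub]
  simp

theorem ff_steps (V e : ℕ) (t y : ZMod p) (J : ℕ) :
    ∑ k ∈ range J, (GG V t (y - k) - GG V t (y - k - e)) = ff V e t y - ff V e t (y - J) := by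
  induction J with
  | zero => simp
  | succ J ih =>
    rw [sum_range_succ, ih]
    have h := ff_step V e t (y - J)
    push_cast
    rw [← sub_sub]
    linear_combination -h

theorem ff_tele (V e : ℕ) (t y : ZMod p) :
    ff V e t y - ff V e t (y - t) =
      ∑ i ∈ range e, (ind (i : ZMod p) y - ind ((V : ZMod p) * t + (i : ZMod p)) y) := by
  unfold ff
  rw [sum_comm, sum_comm (s := range V)]
  rw [← sum_sub_distrib]
  refine sum_congr rfl fun i _ => ?_
  rw [← sum_sub_distrib]
  have h : ∀ l : ℕ, ind ((l : ZMod p) * t + (i : ZMod p)) y - ind ((l : ZMod p) * t + (i : ZMod p)) (y - t) =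
      ind ((l : ZMod p) * t + (i : ZMod p)) y - ind (((l + 1 : ℕ) : ZMod p) * t + (i : ZMod p)) y := by
    intro l
    rw [ind_sub]
    congr 2
    push_cast
    ring
  rw [sum_congr rfl (fun l _ => h l),
    sum_range_sub' (fun l : ℕ => ind ((l : ZMod p) * t + (i : ZMod p)) y)]
  simp

theorem arc_step (e : ℕ) (s y : ZMod p) :
    ∑ i ∈ range e, ind (s + (i : ZMod p)) y - ∑ i ∈ range e, ind (s + (i : ZMod p)) (y - 1) =
      ind s y - ind (s + (e : ZMod p)) y := by
  rw [← sum_sub_distrib]
  have h : ∀ i : ℕ, ind (s + (i : ZMod p)) y - ind (s + (i : ZMod p)) (y - 1) =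
      ind (s + (i : ZMod p)) y - ind (s + ((i + 1 : ℕ) : ZMod p)) y := by
    intro i
    rw [ind_sub]
    congr 2
    push_cast
    ring
  rw [sum_congr rfl (fun i _ => h i), sum_range_sub' (fun i : ℕ => ind (s + (i : ZMod p)) y)]
  simp

theorem sum_ind (x : ZMod p) : ∑ y, ind x y = 1 := by
  unfold ind
  simp

theorem sum_ff (V e : ℕ) (t : ZMod p) : ∑ y, ff V e t y = V * e := by
  unfold ff
  rw [sum_comm]
  have : ∀ l ∈ range V, ∑ y, ∑ i ∈ range e, ind ((l : ZMod p) * t + (i : ZMod p)) y = (e : ℤ) := by
    intro l _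
    rw [sum_comm]
    simp [sum_ind]
  rw [sum_congr rfl this]
  simp

/-- the final algebraic step -/
theorem four_points {e s t z : ZMod p} (he0 : e ≠ 0) (he1 : e ≠ 1) (he2 : e ≠ -1) (hs0 : s ≠ 0)
    (ε : ℤ) (hε : ε = 1 ∨ ε = -1)
    (h : ∀ y, ind 0 y - ind e y - ind s y + ind (s + e) y =
      ε * (ind z y - ind (z + 1) y - ind (z + t) y + ind (z + t + 1) y)) :
    s = 1 ∨ s = -1 := by
  have hse : s + e ≠ s := by simpa using he0
  have hse' : s + e ≠ e := by simpa using hs0
  have hs := h s
  have hee := h e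
  have h0 := h 0
  have h00 := h (s + e)
  unfold ind at hs hee h0 h00
  rw [if_neg (Ne.symm hs0), if_pos (rfl : s = s), if_neg hse] at hs
  rw [if_neg (Ne.symm he0), if_pos (rfl : e = e), if_neg hse'] at hee
  rw [if_pos (rfl : (0 : ZMod p) = 0), if_neg he0, if_neg hs0] at h0
  rw [if_neg (Ne.symm hse'), if_neg (Ne.symm hse), if_pos (rfl : s + e = s + e)] at h00
  have P1 : (ε = 1 → z + 1 = s ∨ z + t = s) ∧ (ε = -1 → z = s ∨ z + t + 1 = s) := by
    constructor
    · rintro rfl
      by_contra hcon
      push Not at hcon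
      rw [if_neg hcon.1, if_neg hcon.2] at hs
      split_ifs at hs <;> omega
    · rintro rfl
      by_contra hcon
      push Not at hcon
      rw [if_neg hcon.1, if_neg hcon.2] at hs
      split_ifs at hs <;> omega
  have P2 : (ε = 1 → z + 1 = e ∨ z + t = e) ∧ (ε = -1 → z = e ∨ z + t + 1 = e) := by
    constructor
    · rintro rfl
      by_contra hcon
      push Not at hcon
      rw [if_neg hcon.1, if_neg hcon.2] at hee
      split_ifs at hee <;> omega
    · rintro rfl
      by_contra hcon
      push Not at hcon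
      rw [if_neg hcon.1, if_neg hcon.2] at hee
      split_ifs at hee <;> omega
  have P3 : (ε = 1 → z = 0 ∨ z + t + 1 = 0) ∧ (ε = -1 → z + 1 = 0 ∨ z + t = 0) := by
    constructor
    · rintro rfl
      by_contra hcon
      push Not at hcon
      rw [if_neg hcon.1, if_neg hcon.2] at h0
      split_ifs at h0 <;> omega
    · rintro rfl
      by_contra hcon
      push Not at hcon
      rw [if_neg hcon.1, if_neg hcon.2] at h0
      split_ifs at h0 <;> omega
  -- if the two negative points coincide
  have P4 : s = e → (ε = 1 → z + 1 = s ∧ z + t = s) ∧ (ε = -1 → z = s ∧ z + t + 1 = s) := by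
    intro hse2
    rw [if_pos hse2.symm] at hs
    constructor
    · rintro rfl
      by_contra hcon
      rcases not_and_or.1 hcon with hc | hc
      · rw [if_neg hc] at hs
        split_ifs at hs <;> omega
      · rw [if_neg hc] at hs
        split_ifs at hs <;> omega
    · rintro rfl
      by_contra hcon
      rcases not_and_or.1 hcon with hc | hc
      · rw [if_neg hc] at hs
        split_ifs at hs <;> omega
      · rw [if_neg hc] at hs
        split_ifs at hs <;> omega
  rcases hε with hε | hε
  · rcases P3.1 hε with hz | hz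
    · subst hz
      rcases P1.1 hε with h1 | h1
      · left; rw [← h1]; ring
      · rcases P2.1 hε with h2 | h2
        · exact absurd (by rw [← h2]; ring) he1
        · have := (P4 (h1.symm.trans h2)).1 hε
          left; rw [← this.1]; ring
    · have ht : z + t = -1 := by linear_combination hz
      rcases P1.1 hε with h1 | h1
      · rcases P2.1 hε with h2 | h2
        · have := (P4 (h1.symm.trans h2)).1 hε
          right; rw [← this.2, ht]
        · exact absurd (by rw [← h2, ht]) he2
      · right; rw [← h1, ht]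
  · rcases P3.2 hε with hz | hz
    · have hz' : z = -1 := by linear_combination hz
      rcases P1.2 hε with h1 | h1
      · right; rw [← h1, hz']
      · rcases P2.2 hε with h2 | h2
        · exact absurd (by rw [← h2, hz']) he2
        · have := (P4 (h1.symm.trans h2)).2 hε
          right; rw [← this.1, hz']
    · rcases P1.2 hε with h1 | h1
      · rcases P2.2 hε with h2 | h2
        · have := (P4 (h1.symm.trans h2)).2 hε
          left; rw [← this.2, hz]; ring
        · exact absurd (by rw [← h2, hz]; ring) he1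
      · left; rw [← h1, hz]; ring

/-- if `f` takes at most two consecutive values and its sum is `± 1` mod `p` then it is constant
off one point -/
theorem almost_const (f : ZMod p → ℤ) (hf : ∀ y z, f y - f z ≤ 1)
    (hsum : ((∑ y, f y : ℤ) : ZMod p) = 1 ∨ ((∑ y, f y : ℤ) : ZMod p) = -1) :
    ∃ (c ε : ℤ) (z : ZMod p), (ε = 1 ∨ ε = -1) ∧ ∀ y, f y = c + ε * ind z y := by
  classical
  obtain ⟨y0, -, hy0⟩ := Finset.exists_min_image univ f ⟨0, mem_univ _⟩
  have h1 : ∀ y, f y = f y0 ∨ f y = f y0 + 1 := by
    intro y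
    have h2 := hy0 y (mem_univ _)
    have h3 := hf y y0
    omega
  let S : Finset (ZMod p) := univ.filter (fun y => f y = f y0 + 1)
  have hS : ∑ y, f y = p * f y0 + S.card := by
    have : ∀ y, f y = f y0 + if f y = f y0 + 1 then 1 else 0 := by
      intro y
      rcases h1 y with h | h
      · rw [if_neg (by omega)]; omega
      · rw [if_pos h]; omega
    rw [sum_congr rfl (fun y _ => this y), sum_add_distrib, sum_boole]
    simp [S, ZMod.card]
  rw [hS] at hsum
  have hcard : S.card ≤ p := by
    calc S.card ≤ (univ : Finset (ZMod p)).card := card_le_card (filter_subset _ _)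
      _ = p := by simp [ZMod.card]
  have hp2 := hp.out.two_le
  have hS1 : S.card = 1 ∨ S.card = p - 1 := by
    push_cast at hsum
    rw [CharP.cast_eq_zero, zero_mul, zero_add] at hsum
    rcases hsum with h | h
    · left
      have h2 : ((S.card : ℕ) : ZMod p) = ((1 : ℕ) : ZMod p) := by simpa using h
      rw [ZMod.natCast_eq_natCast_iff'] at h2
      rw [Nat.mod_eq_of_lt (show 1 < p by omega)] at h2
      rcases hcard.lt_or_eq with h3 | h3
      · rwa [Nat.mod_eq_of_lt h3] at h2
      · rw [h3, Nat.mod_self] at h2; omega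
    · right
      have h2 : ((S.card + 1 : ℕ) : ZMod p) = 0 := by push_cast; rw [h]; ring
      rw [ZMod.natCast_eq_zero_iff] at h2
      obtain ⟨k, hk⟩ := h2
      have : k = 1 := by
        rcases k with _ | _ | k
        · omega
        · rfl
        · exfalso
          have : p * (k + 1 + 1) = p * k + p + p := by ring
          have : 0 ≤ p * k := Nat.zero_le _
          omega
      subst this
      omega
  rcases hS1 with h | h
  · obtain ⟨z, hz⟩ := card_eq_one.1 h
    refine ⟨f y0, 1, z, Or.inl rfl, fun y => ?_⟩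
    have hy : y ∈ S ↔ y = z := by rw [hz]; simp
    simp only [S, mem_filter, mem_univ, true_and] at hy
    unfold ind
    by_cases hyz : y = z
    · rw [if_pos hyz.symm]; rw [hy.2 hyz]; ring
    · rw [if_neg (fun h => hyz h.symm)]
      rcases h1 y with h2 | h2
      · rw [h2]; ring
      · exact absurd (hy.1 h2) hyz
  · have hc : Sᶜ.card = 1 := by
      rw [card_compl, ZMod.card, h]; omega
    obtain ⟨z, hz⟩ := card_eq_one.1 hc
    refine ⟨f y0 + 1, -1, z, Or.inr rfl, fun y => ?_⟩
    have hy : y ∉ S ↔ y = z := by rw [← mem_compl, hz]; simp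
    simp only [S, mem_filter, mem_univ, true_and] at hy
    unfold ind
    by_cases hyz : y = z
    · rw [if_pos hyz.symm]
      rcases h1 y with h2 | h2
      · rw [h2]; ring
      · exact absurd h2 (hy.2 hyz)
    · rw [if_neg (fun h => hyz h.symm)]
      by_contra h2
      apply hyz
      apply hy.1
      intro h3
      apply h2
      rw [h3]; ring

/-- The balance lemma. -/
theorem balance (V e : ℕ) (t : ZMod p) (he0 : (e : ZMod p) ≠ 0) (he1 : (e : ZMod p) ≠ 1)
    (he2 : (e : ZMod p) ≠ -1) (hV : (V : ZMod p) * e = 1 ∨ (V : ZMod p) * e = -1)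
    (ht : t ≠ 0) (ht1 : (V : ZMod p) * t ≠ 1) (ht2 : (V : ZMod p) * t ≠ -1) :
    ∃ y z, 2 ≤ ff V e t y - ff V e t z := by
  by_contra hcon
  push Not at hcon
  have hV0 : (V : ZMod p) ≠ 0 := by
    rintro h
    rw [h, zero_mul] at hV
    rcases hV with h | h
    · exact zero_ne_one h
    · exact zero_ne_one (neg_eq_zero.1 h.symm).symm
  have hsum : ((∑ y, ff V e t y : ℤ) : ZMod p) = 1 ∨ ((∑ y, ff V e t y : ℤ) : ZMod p) = -1 := by
    rw [sum_ff]
    push_cast
    exact hV
  obtain ⟨c, ε, z, hε, hf⟩ := almost_const (ff V e t) (fun y z => by have := hcon y z; omega) hsum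
  have hs0 : (V : ZMod p) * t ≠ 0 := mul_ne_zero hV0 ht
  have key : ∀ y, ∑ i ∈ range e, (ind (i : ZMod p) y - ind ((V : ZMod p) * t + (i : ZMod p)) y) =
      ε * (ind z y - ind (z + t) y) := by
    intro y
    rw [← ff_tele, hf, hf, ind_sub]
    ring
  have h4 := four_points (t := t) (z := z) he0 he1 he2 hs0 ε hε (by
    intro y
    have h1 := key y
    have h2 := key (y - 1)
    rw [sum_sub_distrib] at h1 h2
    have h3 := arc_step e 0 y
    have h5 := arc_step e ((V : ZMod p) * t) y
    simp only [zero_add] at h3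
    rw [ind_sub, ind_sub] at h2
    linear_combination h1 - h2 - h3 + h5)
  rcases h4 with h | h
  · exact ht1 h
  · exact ht2 h

end Pool.Agent.Helper8.Tern
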