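import Pool.Agent.Helper8.Tern.CaseTwo

set_option autoImplicit false

/-!
# The case `v ≢ 0, ± 1 (mod p)`
-/

namespace Pool.Agent.Helper8.Tern

open Polynomial Finset

variable {p q r v : ℕ} [Fact p.Prime]

theorem GG_scale (V : ℕ) (x y c : ZMod p) (hc : c ≠ 0) : GG V x y = GG V (x * c) (y * c) := by
  unfold GG ind
  refine sum_congr rfl fun l _ => ?_
  congr 1
  rw [← mul_assoc, eq_iff_iff]
  constructor
  · intro h
    rw [h]
  · intro h
    exact mul_right_cancel₀ hc h

/-- a number in a given residue class just above `L` -/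
theorem exists_res (L : ℕ) (x : ZMod p) : ∃ N : ℕ, L ≤ N ∧ N < L + p ∧ (N : ZMod p) = x := by
  refine ⟨L + (x - L).val, by omega, ?_, ?_⟩
  · have := ZMod.val_lt (x - (L : ZMod p))
    omega
  · push_cast
    rw [ZMod.natCast_zmod_val]
    ring

theorem exists_V (hv0 : (v : ZMod p) ≠ 0) (hv1 : (v : ZMod p) ≠ 1) (hv2 : (v : ZMod p) ≠ -1) :
    ∃ V : ℕ, 2 ≤ V ∧ V ≤ v % p ∧ V ≤ p - v % p ∧ ((V : ZMod p) = v ∨ (V : ZMod p) = -v) := by
  have hp : p.Prime := Fact.out
  have hlt := Nat.mod_lt v hp.pos
  have hmod : ((v % p : ℕ) : ZMod p) = v := by simp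
  have hcomp : ((p - v % p : ℕ) : ZMod p) = -v := by
    rw [Nat.cast_sub hlt.le, hmod]; simp
  have h0 : v % p ≠ 0 := by
    intro h
    rw [h] at hmod
    exact hv0 (by simpa using hmod.symm)
  have h1 : v % p ≠ 1 := by
    intro h
    rw [h] at hmod
    exact hv1 (by simpa using hmod.symm)
  have h2 : v % p ≠ p - 1 := by
    intro h
    have : p - v % p = 1 := by have := hp.one_lt; omega
    rw [this] at hcomp
    apply hv2
    push_cast at hcomp
    linear_combination hcomp
  rcases le_total (v % p) (p - v % p) with hle | hle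
  · exact ⟨v % p, by omega, le_rfl, hle, Or.inl hmod⟩
  · exact ⟨p - v % p, by omega, hle, le_rfl, Or.inr hcomp⟩

theorem case_C {ε : ℤ} (hε : ε = 1 ∨ ε = -1) (hq : q.Prime) (hr : r.Prime)
    (hpq : p < q) (hqr : q < r) (hv : 2 ≤ v) (hvq : (p - 1) * (v + 1) < q)
    (h : ((p : ℤ) * q) ∣ (r : ℤ) * v - ε) (hv1 : (v : ZMod p) ≠ 1) (hv2 : (v : ZMod p) ≠ -1)
    (hq1 : (q : ZMod p) ≠ 1) (hq2 : (q : ZMod p) ≠ -1) :
    ∃ n, 2 ≤ |(cyclotomic (p * q * r) ℤ).coeff n| := by
  have hp : p.Prime := Fact.out
  have hp1 := hp.one_lt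
  have hbig := r_big hε hp hqr hv hvq h
  have hrp := r_mod_p h
  have hε0 : (ε : ZMod p) ≠ 0 := by
    rcases hε with rfl | rfl
    · simp
    · simp
  have hv0 : (v : ZMod p) ≠ 0 := by
    intro h0
    rw [h0, mul_zero] at hrp
    exact hε0 hrp.symm
  have hq0 : (q : ZMod p) ≠ 0 := by
    intro h0
    rw [ZMod.natCast_eq_zero_iff] at h0
    rcases (Nat.dvd_prime hq).1 h0 with h1 | h1
    · omega
    · omega
  obtain ⟨V, hV2, hVa, hVb, hVv⟩ := exists_V hv0 hv1 hv2
  have hlt := Nat.mod_lt v hp.pos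
  set e : ℕ := ((v : ZMod p)⁻¹).val with he
  have hec : (e : ZMod p) = (v : ZMod p)⁻¹ := ZMod.natCast_zmod_val _
  have hev : (v : ZMod p) * e = 1 := by rw [hec]; exact mul_inv_cancel₀ hv0
  have he0 : (e : ZMod p) ≠ 0 := by
    intro h0
    rw [h0, mul_zero] at hev
    exact zero_ne_one hev
  obtain ⟨y, z, hyz⟩ := balance V e ((q : ZMod p) * (e : ZMod p)) he0
    (by
      intro h1
      rw [h1, mul_one] at hev
      exact hv1 hev)
    (by
      intro h1
      rw [h1] at hev
      exact hv2 (by linear_combination -hev))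
    (by
      rcases hVv with h1 | h1
      · left; rw [h1, hev]
      · right; rw [h1]; linear_combination -hev)
    (mul_ne_zero hq0 he0)
    (by
      intro h1
      rcases hVv with h2 | h2
      · rw [h2] at h1
        exact hq1 (by linear_combination h1 - (q : ZMod p) * hev)
      · rw [h2] at h1
        exact hq2 (by linear_combination -h1 - (q : ZMod p) * hev))
    (by
      intro h1
      rcases hVv with h2 | h2
      · rw [h2] at h1
        exact hq2 (by linear_combination h1 - (q : ZMod p) * hev)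
      · rw [h2] at h1
        exact hq1 (by linear_combination -h1 - (q : ZMod p) * hev))
  -- the number of terms
  have hyz' : y ≠ z := by
    rintro rfl
    simp at hyz
  obtain ⟨J, hJc, hJ1, hJ2⟩ := val_j (p := p) (y - z) (sub_ne_zero.2 hyz')
  have hz : z = y - J := by rw [hJc]; ring
  obtain ⟨N, hN1, hN2, hNc⟩ := exists_res (p := p) ((V - 1) * q + (J - 1) * v) ((v : ZMod p) * y)
  -- inequalities
  have hvq1 : (p - 1) * (v + 1) = (p - 1) * v + (p - 1) := by ring
  have hsplit : (J - 1) * v + (p - J) * v = (p - 1) * v := by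
    rw [← Nat.add_mul]
    congr 1
    omega
  have hVq : (V - 1) * q + q = V * q := by
    obtain ⟨V', rfl⟩ : ∃ V', V = V' + 1 := ⟨V - 1, by omega⟩
    simp only [Nat.add_sub_cancel]
    ring
  have hNup : N + (p - J) * v < V * q := by omega
  have hVq1 : q ≤ (V - 1) * q := Nat.le_mul_of_pos_left _ (by omega)
  have hjJ : ∀ k < J, k * v ≤ (J - 1) * v := fun k hk => Nat.mul_le_mul_right _ (by omega)
  have hq1' := hq.one_lt
  -- the value of the sum
  have hsum : ∑ k ∈ range J, (cyclotomic (p * q) ℤ).coeff (N - k * v) =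
      ff V e ((q : ZMod p) * (e : ZMod p)) y - ff V e ((q : ZMod p) * (e : ZMod p)) z := by
    rw [hz, ← ff_steps]
    refine sum_congr rfl fun k hk => ?_
    rw [mem_range] at hk
    have hk' := hjJ k hk
    have hb1 : (V - 1) * q ≤ N - k * v := by omega
    rw [coeff_level (m := V - 1) hq hpq (by omega) hb1
      (by rw [Nat.sub_add_cancel (by omega)]; omega) (by omega), Nat.sub_add_cancel (by omega)]
    have hNk : ((N - k * v : ℕ) : ZMod p) = v * y - k * v := by
      rw [Nat.cast_sub (by omega), hNc]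
      push_cast
      ring
    rw [hNk, GG_scale V (q : ZMod p) _ (e : ZMod p) he0,
      GG_scale V (q : ZMod p) _ (e : ZMod p) he0]
    have e1 : ((v : ZMod p) * y - k * v) * e = y - k := by
      linear_combination (y - k) * hev
    have e2 : ((v : ZMod p) * y - k * v - 1) * e = y - k - e := by
      linear_combination (y - k) * hev
    rw [e1, e2]
  have hJ' : (1 : ℤ) ≤ J := by exact_mod_cast hJ1
  have hJ'' : (J : ℤ) ≤ p - 1 := by
    have := (Nat.cast_le (α := ℤ)).2 hJ2
    push_cast [Nat.cast_sub hp.one_lt.le] at this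
    exact this
  have hρ : (v : ZMod p) = (((v % p : ℕ) : ℤ) : ZMod p) := by simp
  have hqv := dvd_mul_q (q := q) hρ
  have hVa' : (V : ℤ) ≤ ((v % p : ℕ) : ℤ) := by exact_mod_cast hVa
  have hVb' : (V : ℤ) ≤ p - ((v % p : ℕ) : ℤ) := by
    have := (Nat.cast_le (α := ℤ)).2 hVb
    rw [Nat.cast_sub hlt.le] at this
    exact this
  have hV2' : (2 : ℤ) ≤ V := by exact_mod_cast hV2
  have hM : q + p ≤ p * q := by nlinarith [hp.two_le]
  rcases hε with rfl | rfl
  · -- `ε = 1`, `i = p - J`
    have hic : ((p - J : ℕ) : ℤ) = p - J := by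
      rw [Nat.cast_sub (by omega)]
    refine ⟨r * N + (p - J), ?_⟩
    rw [coeff_window_sum hp hq hr hpq hqr v V J N (p - J) (by omega) (by omega) (by omega) hJ1
      (by omega) (by omega) hN1 hNup ?_ ?_ ?_]
    · rw [hsum]
      exact le_trans hyz (le_abs_self _)
    · intro k hk
      have hk2 : k + (p - J) < p := by omega
      have : (r * (k * v) + (p - J)) % (p * q) = k + (p - J) := by
        apply mod_of_dvd (by omega)
        push_cast [hic]
        have e1 : (r : ℤ) * (k * v) + (p - J) - (k + (p - J)) = k * (r * v - 1) := by ring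
        rw [e1]
        exact Dvd.dvd.mul_left h _
      rw [this]
      exact hk2
    · intro t ht
      obtain ⟨u, hu⟩ : ∃ u, u = (r * t + (p - J)) % (p * q) := ⟨_, rfl⟩
      rw [← hu] at ht
      have hd := dvd_of_mod (p * q) (r * t + (p - J))
      rw [← hu] at hd
      push_cast [hic] at hd
      have hs := hit_solve (i := p - J) (Or.inl rfl) h t u (by rwa [hic])
      rw [hic] at hs
      have hup : (u : ℤ) < p := by exact_mod_cast ht
      refine ⟨(u : ℤ) - (p - J), by linarith [Int.natCast_nonneg u], by linarith, ?_⟩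
      have e1 : (t : ℤ) - (u - (p - J)) * v = t - 1 * (u - (p - J)) * v := by ring
      rw [e1]
      exact hs
    · intro t ht1 ht2
      obtain ⟨u, hu⟩ : ∃ u, q + u = (r * t + (p - J)) % (p * q) :=
        ⟨_, Nat.add_sub_cancel' ht1⟩
      rw [← hu] at ht2
      have hd := dvd_of_mod (p * q) (r * t + (p - J))
      rw [← hu] at hd
      push_cast [hic] at hd
      have hs := hit_solve (i := p - J) (Or.inl rfl) h t ((q : ℤ) + u) (by rwa [hic])
      rw [hic] at hs
      have hup : (u : ℤ) < p := by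
        have : ((q + u : ℕ) : ℤ) < (q + p : ℕ) := by exact_mod_cast ht2
        push_cast at this
        linarith
      refine ⟨(u : ℤ) - (p - J), ((v % p : ℕ) : ℤ), by linarith [Int.natCast_nonneg u],
        by linarith, hVa', by linarith, ?_⟩
      have e1 : (t : ℤ) - (q * ((v % p : ℕ) : ℤ) + (u - (p - J)) * v) =
        (t - 1 * (q + u - (p - J)) * v) + (q * v - q * ((v % p : ℕ) : ℤ)) := by ring
      rw [e1]
      exact dvd_add hs hqv
  · -- `ε = -1`, `i = J - 1`
    have hic : ((J - 1 : ℕ) : ℤ) = J - 1 := by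
      rw [Nat.cast_sub hJ1]; simp
    refine ⟨r * N + (J - 1), ?_⟩
    rw [coeff_window_sum hp hq hr hpq hqr v V J N (J - 1) (by omega) (by omega) (by omega) hJ1
      (by omega) (by omega) hN1 hNup ?_ ?_ ?_]
    · rw [hsum]
      exact le_trans hyz (le_abs_self _)
    · intro k hk
      have hkc : ((J - 1 - k : ℕ) : ℤ) = J - 1 - k := by
        rw [Nat.sub_sub, Nat.cast_sub (by omega)]; push_cast; ring
      have : (r * (k * v) + (J - 1)) % (p * q) = J - 1 - k := by
        apply mod_of_dvd (by omega)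
        push_cast [hic, hkc]
        have e1 : (r : ℤ) * (k * v) + (J - 1) - (J - 1 - k) = k * (r * v - -1) := by ring
        rw [e1]
        exact Dvd.dvd.mul_left h _
      rw [this]
      omega
    · intro t ht
      obtain ⟨u, hu⟩ : ∃ u, u = (r * t + (J - 1)) % (p * q) := ⟨_, rfl⟩
      rw [← hu] at ht
      have hd := dvd_of_mod (p * q) (r * t + (J - 1))
      rw [← hu] at hd
      push_cast [hic] at hd
      have hs := hit_solve (i := J - 1) (Or.inr rfl) h t u (by rwa [hic])
      rw [hic] at hs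
      have hup : (u : ℤ) < p := by exact_mod_cast ht
      refine ⟨(J : ℤ) - 1 - u, by linarith, by linarith [Int.natCast_nonneg u], ?_⟩
      have e1 : (t : ℤ) - (J - 1 - u) * v = t - -1 * (u - (J - 1)) * v := by ring
      rw [e1]
      exact hs
    · intro t ht1 ht2
      obtain ⟨u, hu⟩ : ∃ u, q + u = (r * t + (J - 1)) % (p * q) :=
        ⟨_, Nat.add_sub_cancel' ht1⟩
      rw [← hu] at ht2
      have hd := dvd_of_mod (p * q) (r * t + (J - 1))
      rw [← hu] at hd
      push_cast [hic] at hd
      have hs := hit_solve (i := J - 1) (Or.inr rfl) h t ((q : ℤ) + u) (by rwa [hic])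
      rw [hic] at hs
      have hup : (u : ℤ) < p := by
        have : ((q + u : ℕ) : ℤ) < (q + p : ℕ) := by exact_mod_cast ht2
        push_cast at this
        linarith
      refine ⟨(J : ℤ) - 1 - u, p - ((v % p : ℕ) : ℤ), by linarith,
        by linarith [Int.natCast_nonneg u], hVb', by linarith, ?_⟩
      have e1 : (t : ℤ) - (q * (p - ((v % p : ℕ) : ℤ)) + (J - 1 - u) * v) =
        (t - -1 * (q + u - (J - 1)) * v) - (q * v - q * ((v % p : ℕ) : ℤ)) - p * q := by ring
      rw [e1]
      exact dvd_sub (dvd_sub hs hqv) (dvd_refl _)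

end Pool.Agent.Helper8.Tern
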