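import Pool.Agent.Helper8.Tern.Level

set_option autoImplicit false

/-!
# The case `v ≡ ± 1 (mod p)`
-/

namespace Pool.Agent.Helper8.Tern

open Polynomial Finset

theorem cc_ne_zero {p q m : ℕ} (h : cc p q m ≠ 0) :
    m % (p * q) < p ∨ (q ≤ m % (p * q) ∧ m % (p * q) < q + p) := by
  by_contra hcon
  push Not at hcon
  apply h
  apply cc_zero
  · exact not_lt.2 hcon.1
  · rintro ⟨h1, h2⟩
    exact absurd h2 (not_lt.2 (hcon.2 h1))

/-- For a step larger than one, all terms of the convolution but two vanish. -/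
theorem two_hits {p q r : ℕ} (hp : p.Prime) (hq : q.Prime) (hr : r.Prime) (hpq : p < q)
    (hqr : q < r) (v j N T i : ℕ) (hv : 2 ≤ v) (hvq : (p - 1) * v < q) (hj : j ≤ p - 1)
    (hi : i < r) (hT : T + j * v = q) (hN : N = T ∨ N = T + 1) (hT0 : 0 < T)
    (hits : ∀ t : ℕ, cc p q (r * t + i) ≠ 0 → ∃ κ : ℤ, -(j : ℤ) ≤ κ ∧ κ ≤ (p : ℤ) - 1 - j ∧
      (((p : ℤ) * q) ∣ (t : ℤ) - κ * v ∨ ((p : ℤ) * q) ∣ (t : ℤ) - (q + κ * v)))
    (zero : ∀ k : ℕ, 0 < k → k + j ≤ p - 1 → (cyclotomic (p * q) ℤ).coeff (N - k * v) = 0) :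
    (cyclotomic (p * q * r) ℤ).coeff (r * N + i) =
      (cyclotomic (p * q) ℤ).coeff N * cc p q i +
        (cyclotomic (p * q) ℤ).coeff (N - T) * cc p q (r * T + i) := by
  rw [coeff_pqr hp hq hr hpq hqr N i hi]
  have hp1 := hp.one_lt
  have hp0 : (0 : ℤ) < p := by exact_mod_cast hp.pos
  have hq0 : (0 : ℤ) < q := by exact_mod_cast hq.pos
  have hv0 : (2 : ℤ) ≤ v := by exact_mod_cast hv
  have hvq' : ((p : ℤ) - 1) * v < q := by
    have := (Nat.cast_lt (α := ℤ)).2 hvq
    push_cast [Nat.cast_sub hp1.le] at this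
    exact this
  have hj' : (j : ℤ) ≤ p - 1 := by
    have := (Nat.cast_le (α := ℤ)).2 hj
    push_cast [Nat.cast_sub hp1.le] at this
    exact this
  have hT' : (T : ℤ) + j * v = q := by exact_mod_cast hT
  have hN1 : (T : ℤ) ≤ N := by
    rcases hN with h | h <;> subst h <;> simp
  have hN2 : (N : ℤ) ≤ T + 1 := by
    rcases hN with h | h <;> subst h <;> simp
  have hTpos : (0 : ℤ) < T := by exact_mod_cast hT0
  have h2q : 2 * (q : ℤ) ≤ p * q := by
    have : (2 : ℤ) ≤ p := by exact_mod_cast hp.two_le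
    nlinarith
  have hj0 : (0 : ℤ) ≤ j := by positivity
  have hjv : (0 : ℤ) ≤ j * v := by positivity
  have hjv' : (j : ℤ) * v ≤ (p - 1) * v := mul_le_mul_of_nonneg_right hj' (by linarith)
  have hq1 : (1 : ℤ) < q := by exact_mod_cast hq.one_lt
  have hother : ∀ t ∈ range (N + 1), t ≠ 0 → t ≠ T →
      (cyclotomic (p * q) ℤ).coeff (N - t) * cc p q (r * t + i) = 0 := by
    intro t ht ht0 htT
    rw [mem_range] at ht
    by_cases hc : cc p q (r * t + i) = 0
    · rw [hc, mul_zero]
    · obtain ⟨κ, hκ1, hκ2, hκ3⟩ := hits t hc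
      have htN : (t : ℤ) ≤ N := by exact_mod_cast Nat.lt_succ_iff.1 ht
      have ht0' : (0 : ℤ) < t := by exact_mod_cast Nat.pos_of_ne_zero ht0
      have c1 : -(j : ℤ) * v ≤ κ * v := mul_le_mul_of_nonneg_right hκ1 (by linarith)
      have c2 : κ * v ≤ ((p : ℤ) - 1 - j) * v := mul_le_mul_of_nonneg_right hκ2 (by linarith)
      have c3 : ((p : ℤ) - 1 - j) * v = (p - 1) * v - j * v := by ring
      have c4 : -(j : ℤ) * v = -(j * v) := by ring
      rcases hκ3 with hd | hd
      · have h0 : (t : ℤ) - κ * v = 0 := by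
          apply Int.eq_zero_of_abs_lt_dvd hd
          rw [abs_lt]
          constructor <;> linarith
        have hκ0 : 0 < κ := by
          by_contra hneg
          push Not at hneg
          have : κ * v ≤ 0 := mul_nonpos_of_nonpos_of_nonneg hneg (by linarith)
          linarith
        obtain ⟨k, rfl⟩ := Int.eq_ofNat_of_zero_le hκ0.le
        have htk : t = k * v := by
          have : (t : ℤ) = ((k * v : ℕ) : ℤ) := by push_cast; linarith
          exact_mod_cast this
        rw [htk, zero k (by exact_mod_cast hκ0) (by omega), zero_mul]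
      · exfalso
        have h0 : (t : ℤ) - (q + κ * v) = 0 := by
          apply Int.eq_zero_of_abs_lt_dvd hd
          rw [abs_lt]
          constructor <;> linarith
        have h1 : (κ + j) * v ≤ 1 := by
          have : (κ + j) * v = κ * v + j * v := by ring
          linarith
        have h2 : κ + j ≤ 0 := by
          by_contra h3
          push Not at h3
          have : 1 * (v : ℤ) ≤ (κ + j) * v := mul_le_mul_of_nonneg_right h3 (by linarith)
          linarith
        have h3 : κ = -j := by linarith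
        apply htT
        have : (t : ℤ) = T := by
          rw [h3] at h0
          linarith
        exact_mod_cast this
  have hTN : T ∈ range (N + 1) := by
    rw [mem_range]
    have : T ≤ N := by exact_mod_cast hN1
    omega
  have h0T : (0 : ℕ) ≠ T := by omega
  have hsub : ({0, T} : Finset ℕ) ⊆ range (N + 1) := by
    intro t ht
    rw [mem_insert, mem_singleton] at ht
    rcases ht with rfl | rfl
    · simp
    · exact hTN
  rw [← sum_subset hsub]
  · rw [sum_pair h0T]
    simp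
  · intro t ht ht2
    rw [mem_insert, mem_singleton, not_or] at ht2
    exact hother t ht ht2.1 ht2.2

/-- coefficients of `Φ_{pq}` below `q` -/
theorem coeff_low {p q s : ℕ} [Fact p.Prime] (hq : q.Prime) (hpq : p < q) (h : s < q)
    (hs : 0 < s) :
    (cyclotomic (p * q) ℤ).coeff s =
      (if (s : ZMod p) = 0 then 1 else 0) - (if (s : ZMod p) = 1 then 1 else 0) := by
  have hp : p.Prime := Fact.out
  rw [coeff_level (m := 0) hq hpq hp.pos (by simp) (by simpa using h) hs]
  simp only [GG, ind, zero_add, range_one, sum_singleton, Nat.cast_zero, zero_mul]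
  congr 1
  · simp only [eq_comm]
  · congr 1
    rw [eq_comm (a := (0 : ZMod p)), sub_eq_zero]

theorem hit_solve {p q r v i : ℕ} {ε : ℤ} (hε : ε = 1 ∨ ε = -1)
    (h : ((p : ℤ) * q) ∣ (r : ℤ) * v - ε) (t : ℕ) (w : ℤ)
    (ht : ((p : ℤ) * q) ∣ ((r : ℤ) * t + i) - w) : ((p : ℤ) * q) ∣ (t : ℤ) - ε * (w - i) * v := by
  have h1 : (t : ℤ) - ε * (w - i) * v =
      ε * (v * (((r : ℤ) * t + i) - w) - t * ((r : ℤ) * v - ε)) + (1 - ε * ε) * t := by ring
  have h2 : (1 - ε * ε) = 0 := by rcases hε with h | h <;> subst h <;> norm_num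
  rw [h1, h2, zero_mul, add_zero]
  exact Dvd.dvd.mul_left (dvd_sub (Dvd.dvd.mul_left ht _) (Dvd.dvd.mul_left h _)) _

theorem r_big {p q r v : ℕ} {ε : ℤ} (hε : ε = 1 ∨ ε = -1) (hp : p.Prime) (hqr : q < r)
    (hv : 2 ≤ v) (hvq : (p - 1) * (v + 1) < q)
    (h : ((p : ℤ) * q) ∣ (r : ℤ) * v - ε) : q + p ≤ r := by
  by_contra hcon
  push Not at hcon
  obtain ⟨j, rfl⟩ : ∃ j, r = q + j := ⟨r - q, by omega⟩
  have hj1 : 1 ≤ j := by omega
  have hj2 : j ≤ p - 1 := by omega
  have h1 : (q : ℤ) ∣ (j : ℤ) * v - ε := by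
    have h2 : (q : ℤ) ∣ ((q + j : ℕ) : ℤ) * v - ε := dvd_trans (dvd_mul_left _ _) h
    have h3 : (j : ℤ) * v - ε = (((q + j : ℕ) : ℤ) * v - ε) - q * v := by push_cast; ring
    rw [h3]
    exact dvd_sub h2 (dvd_mul_right _ _)
  have h2 : j * v ≤ (p - 1) * v := Nat.mul_le_mul_right _ hj2
  have h3 : (p - 1) * (v + 1) = (p - 1) * v + (p - 1) := by ring
  have h4 : 1 * v ≤ j * v := Nat.mul_le_mul_right _ hj1
  have hp2 := hp.two_le
  have h5 : (j : ℤ) * v < q - 1 := by
    have : j * v + 1 < q := by omega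
    have := (Nat.cast_lt (α := ℤ)).2 this
    push_cast at this
    linarith
  have h6 : (2 : ℤ) ≤ j * v := by
    have : 2 ≤ j * v := by omega
    exact_mod_cast this
  have h7 := Int.eq_zero_of_abs_lt_dvd h1 (by
    rw [abs_lt]
    rcases hε with h | h <;> subst h <;> constructor <;> linarith)
  rcases hε with h | h <;> subst h <;> linarith

/-- residue computations -/
theorem mod_of_dvd {M m w : ℕ} (hw : w < M) (h : (M : ℤ) ∣ (m : ℤ) - w) : m % M = w := by
  have h1 : (w : ℤ) ≡ m [ZMOD M] := Int.modEq_iff_dvd.2 h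
  have h2 : w ≡ m [MOD M] := by exact_mod_cast h1
  rw [← h2, Nat.mod_eq_of_lt hw]

theorem dvd_of_mod (M m : ℕ) : (M : ℤ) ∣ (m : ℤ) - (m % M : ℕ) := by
  have : (m : ℤ) - (m % M : ℕ) = M * (m / M : ℕ) := by
    have := Nat.div_add_mod m M
    have h2 : (m : ℤ) = M * (m / M : ℕ) + (m % M : ℕ) := by exact_mod_cast this.symm
    linarith
  rw [this]
  exact dvd_mul_right _ _

theorem dvd_cast {p a : ℕ} {b : ℤ} (h : (a : ZMod p) = (b : ZMod p)) : (p : ℤ) ∣ (a : ℤ) - b := by
  rw [← ZMod.intCast_zmod_eq_zero_iff_dvd]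
  push_cast
  rw [h, sub_self]

/-- `q v ≡ q c` modulo `p q` -/
theorem dvd_mul_q {p q v : ℕ} {c : ℤ} (h : (v : ZMod p) = (c : ZMod p)) :
    ((p : ℤ) * q) ∣ (q : ℤ) * v - q * c := by
  have := mul_dvd_mul (dvd_cast h) (dvd_refl (q : ℤ))
  have h2 : (q : ℤ) * v - q * c = ((v : ℤ) - c) * q := by ring
  rwa [h2]

/-- residues `≡ 1, -1` cannot have a large value -/
theorem val_j {p : ℕ} [Fact p.Prime] (x : ZMod p) (hx : x ≠ 0) :
    ∃ j : ℕ, (j : ZMod p) = x ∧ 1 ≤ j ∧ j ≤ p - 1 := by
  have hp : p.Prime := Fact.out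
  refine ⟨x.val, ZMod.natCast_zmod_val x, ?_, ?_⟩
  · have : x.val ≠ 0 := fun h => hx ((ZMod.val_eq_zero x).1 h)
    omega
  · have := ZMod.val_lt x
    omega

theorem cast_ne_zero_of_lt {p k : ℕ} (h0 : 0 < k) (h1 : k < p) : (k : ZMod p) ≠ 0 := by
  intro h
  rw [ZMod.natCast_eq_zero_iff] at h
  exact absurd (Nat.le_of_dvd h0 h) (by omega)

section two

variable {p q r v j : ℕ} [Fact p.Prime]

theorem zero_A (hq : q.Prime) (hpq : p < q) (hvq : (p - 1) * v < q) (hv : 2 ≤ v)
    (hv1 : (v : ZMod p) = 1) (hj : (j : ZMod p) = q + 1) (hj1 : 1 ≤ j) (_ : j ≤ p - 1)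
    (k : ℕ) (hk : 0 < k) (hkj : k + j ≤ p - 1) :
    (cyclotomic (p * q) ℤ).coeff (q + 1 - j * v - k * v) = 0 := by
  have h1 : (k + j) * v ≤ (p - 1) * v := Nat.mul_le_mul_right _ hkj
  have h2 : (k + j) * v = k * v + j * v := by ring
  have h3 : 1 * v ≤ j * v := Nat.mul_le_mul_right _ hj1
  rw [coeff_low hq hpq (by omega) (by omega)]
  have hc : ((q + 1 - j * v - k * v : ℕ) : ZMod p) = -k := by
    rw [Nat.sub_sub, Nat.cast_sub (by omega)]
    push_cast
    rw [hv1, hj]
    ring
  rw [hc, if_neg, if_neg]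
  · simp
  · intro h
    apply cast_ne_zero_of_lt (p := p) (k := k + 1) (by omega) (by omega)
    push_cast
    linear_combination -h
  · rw [neg_eq_zero]
    exact cast_ne_zero_of_lt hk (by omega)

theorem zero_B (hq : q.Prime) (hpq : p < q) (hvq : (p - 1) * v < q) (hv : 2 ≤ v)
    (hv1 : (v : ZMod p) = -1) (hj : (j : ZMod p) = 1 - q) (hj1 : 1 ≤ j) (_ : j ≤ p - 1)
    (k : ℕ) (hk : 0 < k) (hkj : k + j ≤ p - 1) :
    (cyclotomic (p * q) ℤ).coeff (q - j * v - k * v) = 0 := by
  have h1 : (k + j) * v ≤ (p - 1) * v := Nat.mul_le_mul_right _ hkj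
  have h2 : (k + j) * v = k * v + j * v := by ring
  have h3 : 1 * v ≤ j * v := Nat.mul_le_mul_right _ hj1
  rw [coeff_low hq hpq (by omega) (by omega)]
  have hc : ((q - j * v - k * v : ℕ) : ZMod p) = k + 1 := by
    rw [Nat.sub_sub, Nat.cast_sub (by omega)]
    push_cast
    rw [hv1, hj]
    ring
  rw [hc, if_neg, if_neg]
  · simp
  · intro h
    apply cast_ne_zero_of_lt (p := p) hk (by omega)
    linear_combination h
  · have := cast_ne_zero_of_lt (p := p) (k := k + 1) (by omega) (by omega)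
    push_cast at this
    exact this

theorem coeff_pq_one (hq : q.Prime) (hpq : p < q) : (cyclotomic (p * q) ℤ).coeff 1 = -1 := by
  have hp : p.Prime := Fact.out
  have : Fact (1 < p) := ⟨hp.one_lt⟩
  rw [coeff_low hq hpq hq.one_lt one_pos]
  simp

theorem coeff_pq_zero (hq : q.Prime) : (cyclotomic (p * q) ℤ).coeff 0 = 1 := by
  have hp : p.Prime := Fact.out
  have : 1 < p * q := by nlinarith [hp.two_le, hq.two_le]
  exact cyclotomic_coeff_zero ℤ this

theorem ceil_A (hq : q.Prime) (hpq : p < q) (hvq : (p - 1) * v < q) (hv : 2 ≤ v)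
    (hv1 : (v : ZMod p) = 1) (hj : (j : ZMod p) = q + 1) (hj1 : 1 ≤ j) (hj2 : j ≤ p - 1) :
    (cyclotomic (p * q) ℤ).coeff (q + 1 - j * v) = 1 := by
  have hp : p.Prime := Fact.out
  have h1 : j * v ≤ (p - 1) * v := Nat.mul_le_mul_right _ hj2
  have h3 : 1 * v ≤ j * v := Nat.mul_le_mul_right _ hj1
  rw [coeff_low hq hpq (by omega) (by omega)]
  have hc : ((q + 1 - j * v : ℕ) : ZMod p) = 0 := by
    rw [Nat.cast_sub (by omega)]
    push_cast
    rw [hv1, hj]
    ring
  have : Fact (1 < p) := ⟨hp.one_lt⟩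
  rw [hc]
  simp

theorem ceil_B (hq : q.Prime) (hpq : p < q) (hvq : (p - 1) * v < q) (hv : 2 ≤ v)
    (hv1 : (v : ZMod p) = -1) (hj : (j : ZMod p) = 1 - q) (hj1 : 1 ≤ j) (hj2 : j ≤ p - 1) :
    (cyclotomic (p * q) ℤ).coeff (q - j * v) = -1 := by
  have hp : p.Prime := Fact.out
  have h1 : j * v ≤ (p - 1) * v := Nat.mul_le_mul_right _ hj2
  have h3 : 1 * v ≤ j * v := Nat.mul_le_mul_right _ hj1
  rw [coeff_low hq hpq (by omega) (by omega)]
  have hc : ((q - j * v : ℕ) : ZMod p) = 1 := by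
    rw [Nat.cast_sub (by omega)]
    push_cast
    rw [hv1, hj]
    ring
  have : Fact (1 < p) := ⟨hp.one_lt⟩
  rw [hc]
  simp

/-- inverse of `v` modulo `p` -/
theorem r_mod_p {ε : ℤ} (h : ((p : ℤ) * q) ∣ (r : ℤ) * v - ε) :
    (r : ZMod p) * v = (ε : ZMod p) := by
  have h1 : (p : ℤ) ∣ (r : ℤ) * v - ε := dvd_trans (dvd_mul_right _ _) h
  rw [← ZMod.intCast_zmod_eq_zero_iff_dvd] at h1
  push_cast at h1
  exact sub_eq_zero.1 h1

/-- `v ≡ 1 (mod p)` -/
theorem case_A {ε : ℤ} (hε : ε = 1 ∨ ε = -1) (hq : q.Prime) (hr : r.Prime)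
    (hpq : p < q) (hqr : q < r) (hv : 2 ≤ v) (hvq : (p - 1) * (v + 1) < q)
    (h : ((p : ℤ) * q) ∣ (r : ℤ) * v - ε) (hv1 : (v : ZMod p) = 1) (hq1 : (q : ZMod p) ≠ -1) :
    ∃ n, 2 ≤ |(cyclotomic (p * q * r) ℤ).coeff n| := by
  have hp : p.Prime := Fact.out
  have hbig := r_big hε hp hqr hv hvq h
  have hvq' : (p - 1) * v < q := lt_of_le_of_lt (Nat.mul_le_mul_left _ (by omega)) hvq
  obtain ⟨j, hj, hj1, hj2⟩ := val_j (p := p) ((q : ZMod p) + 1) (fun h => hq1 (by
    linear_combination h))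
  have hjv : j * v ≤ (p - 1) * v := Nat.mul_le_mul_right _ hj2
  have hjv1 : 1 * v ≤ j * v := Nat.mul_le_mul_right _ hj1
  have hqv := dvd_mul_q (q := q) (c := 1) (by simpa using hv1 : (v : ZMod p) = ((1 : ℤ) : ZMod p))
  have hrp := r_mod_p h
  rw [hv1, mul_one] at hrp
  have hqr' := dvd_mul_q (q := q) (c := ε) hrp
  have hM : q + p ≤ p * q := by nlinarith [hp.two_le]
  have hj' : (1 : ℤ) ≤ j := by exact_mod_cast hj1
  have hj'' : (j : ℤ) ≤ p - 1 := by
    have := (Nat.cast_le (α := ℤ)).2 hj2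
    push_cast [Nat.cast_sub hp.one_lt.le] at this
    exact this
  have hTc : ((q - j * v : ℕ) : ℤ) = q - j * v := by
    rw [Nat.cast_sub (by omega)]; push_cast; ring
  have hsub : q + 1 - j * v - (q - j * v) = 1 := by omega
  rcases hε with rfl | rfl
  · -- `ε = 1`, `i = j`
    have hT : (r * (q - j * v) + j) % (p * q) = q := by
      apply mod_of_dvd (by omega)
      push_cast [hTc]
      have e : (r : ℤ) * (q - j * v) + j - q = (q * r - q * 1) - j * (r * v - 1) := by ring
      rw [e]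
      exact dvd_sub hqr' (Dvd.dvd.mul_left h _)
    refine ⟨r * (q + 1 - j * v) + j, ?_⟩
    rw [two_hits hp hq hr hpq hqr v j (q + 1 - j * v) (q - j * v) j hv hvq' hj2 (by omega)
      (by omega) (by omega) (by omega) ?_ ?_]
    · rw [hsub, coeff_pq_one hq hpq, ceil_A hq hpq hvq' hv hv1 hj hj1 hj2,
        cc_one hpq (by rw [Nat.mod_eq_of_lt (by omega)]; omega),
        cc_neg_one hpq (by rw [hT]) (by rw [hT]; omega)]
      norm_num
    · intro t ht
      rcases cc_ne_zero ht with h1 | ⟨h1, h2⟩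
      · obtain ⟨u, hu⟩ : ∃ u, u = (r * t + j) % (p * q) := ⟨_, rfl⟩
        rw [← hu] at h1
        have hd := dvd_of_mod (p * q) (r * t + j)
        rw [← hu] at hd
        push_cast at hd
        have hs := hit_solve (Or.inl rfl) h t u hd
        refine ⟨(u : ℤ) - j, by linarith [Int.natCast_nonneg u], ?_, Or.inl ?_⟩
        · have : (u : ℤ) < p := by exact_mod_cast h1
          linarith
        · rwa [one_mul] at hs
      · obtain ⟨u, hu⟩ : ∃ u, q + u = (r * t + j) % (p * q) := ⟨_, Nat.add_sub_cancel' h1⟩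
        rw [← hu] at h2
        have hd := dvd_of_mod (p * q) (r * t + j)
        rw [← hu] at hd
        push_cast at hd
        have hs := hit_solve (Or.inl rfl) h t ((q : ℤ) + u) hd
        refine ⟨(u : ℤ) - j, by linarith [Int.natCast_nonneg u], ?_, Or.inr ?_⟩
        · have : ((q + u : ℕ) : ℤ) < (q + p : ℕ) := by exact_mod_cast h2
          push_cast at this
          linarith
        · have e : (t : ℤ) - (q + (u - j) * v) =
              (t - 1 * (q + u - j) * v) + (q * v - q * 1) := by ring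
          rw [e]
          exact dvd_add hs hqv
    · intro k hk hkj
      exact zero_A hq hpq hvq' hv hv1 hj hj1 hj2 k hk hkj
  · -- `ε = -1`, `i = q + p - 1 - j`
    have hic : ((q + p - 1 - j : ℕ) : ℤ) = q + p - 1 - j := by
      rw [Nat.sub_sub, Nat.cast_sub (by omega)]; push_cast; ring
    have hT : (r * (q - j * v) + (q + p - 1 - j)) % (p * q) = p - 1 := by
      apply mod_of_dvd (by have := hp.one_lt; omega)
      push_cast [hTc, hic, Nat.cast_sub hp.one_lt.le]
      have e : (r : ℤ) * (q - j * v) + (q + p - 1 - j) - (p - 1) =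
        (q * r - q * -1) - j * (r * v - -1) := by ring
      rw [e]
      exact dvd_sub hqr' (Dvd.dvd.mul_left h _)
    refine ⟨r * (q + 1 - j * v) + (q + p - 1 - j), ?_⟩
    rw [two_hits hp hq hr hpq hqr v j (q + 1 - j * v) (q - j * v) (q + p - 1 - j) hv hvq' hj2
      (by omega) (by omega) (by omega) (by omega) ?_ ?_]
    · rw [hsub, coeff_pq_one hq hpq, ceil_A hq hpq hvq' hv hv1 hj hj1 hj2,
        cc_neg_one hpq (by rw [Nat.mod_eq_of_lt (by omega)]; omega)
          (by rw [Nat.mod_eq_of_lt (by omega)]; omega),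
        cc_one hpq (by rw [hT]; have := hp.one_lt; omega)]
      norm_num
    · intro t ht
      rcases cc_ne_zero ht with h1 | ⟨h1, h2⟩
      · obtain ⟨u, hu⟩ : ∃ u, u = (r * t + (q + p - 1 - j)) % (p * q) := ⟨_, rfl⟩
        rw [← hu] at h1
        have hd := dvd_of_mod (p * q) (r * t + (q + p - 1 - j))
        rw [← hu] at hd
        push_cast [hic] at hd
        have hs := hit_solve (i := q + p - 1 - j) (Or.inr rfl) h t u (by rwa [hic])
        rw [hic] at hs
        have hup : (u : ℤ) < p := by exact_mod_cast h1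
        refine ⟨(p : ℤ) - 1 - u - j, by linarith, by linarith [Int.natCast_nonneg u],
          Or.inr ?_⟩
        have e : (t : ℤ) - (q + (p - 1 - u - j) * v) =
            (t - -1 * (u - (q + p - 1 - j)) * v) + (q * v - q * 1) := by ring
        rw [e]
        exact dvd_add hs hqv
      · obtain ⟨u, hu⟩ : ∃ u, q + u = (r * t + (q + p - 1 - j)) % (p * q) :=
          ⟨_, Nat.add_sub_cancel' h1⟩
        rw [← hu] at h2
        have hd := dvd_of_mod (p * q) (r * t + (q + p - 1 - j))
        rw [← hu] at hd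
        push_cast [hic] at hd
        have hs := hit_solve (i := q + p - 1 - j) (Or.inr rfl) h t ((q : ℤ) + u) (by rwa [hic])
        rw [hic] at hs
        have hup : (u : ℤ) < p := by
          have : ((q + u : ℕ) : ℤ) < (q + p : ℕ) := by exact_mod_cast h2
          push_cast at this
          linarith
        refine ⟨(p : ℤ) - 1 - u - j, by linarith, by linarith [Int.natCast_nonneg u],
          Or.inl ?_⟩
        have e : (t : ℤ) - (p - 1 - u - j) * v =
            (t - -1 * (q + u - (q + p - 1 - j)) * v) := by ring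
        rw [e]
        exact hs
    · intro k hk hkj
      exact zero_A hq hpq hvq' hv hv1 hj hj1 hj2 k hk hkj

/-- `v ≡ -1 (mod p)` -/
theorem case_B {ε : ℤ} (hε : ε = 1 ∨ ε = -1) (hq : q.Prime) (hr : r.Prime)
    (hpq : p < q) (hqr : q < r) (hv : 2 ≤ v) (hvq : (p - 1) * (v + 1) < q)
    (h : ((p : ℤ) * q) ∣ (r : ℤ) * v - ε) (hv1 : (v : ZMod p) = -1) (hq1 : (q : ZMod p) ≠ 1) :
    ∃ n, 2 ≤ |(cyclotomic (p * q * r) ℤ).coeff n| := by
  have hp : p.Prime := Fact.out
  have hbig := r_big hε hp hqr hv hvq h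
  have hvq' : (p - 1) * v < q := lt_of_le_of_lt (Nat.mul_le_mul_left _ (by omega)) hvq
  obtain ⟨j, hj, hj1, hj2⟩ := val_j (p := p) (1 - (q : ZMod p)) (fun h => hq1 (by
    linear_combination -h))
  have hjv : j * v ≤ (p - 1) * v := Nat.mul_le_mul_right _ hj2
  have hjv1 : 1 * v ≤ j * v := Nat.mul_le_mul_right _ hj1
  have hqv := dvd_mul_q (q := q) (c := -1)
    (by simpa using hv1 : (v : ZMod p) = ((-1 : ℤ) : ZMod p))
  have hrp := r_mod_p h
  rw [hv1] at hrp
  have hrp' : (r : ZMod p) = ((-ε : ℤ) : ZMod p) := by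
    push_cast
    linear_combination -hrp
  have hqr' := dvd_mul_q (q := q) (c := -ε) hrp'
  have hM : q + p ≤ p * q := by nlinarith [hp.two_le]
  have hj' : (1 : ℤ) ≤ j := by exact_mod_cast hj1
  have hj'' : (j : ℤ) ≤ p - 1 := by
    have := (Nat.cast_le (α := ℤ)).2 hj2
    push_cast [Nat.cast_sub hp.one_lt.le] at this
    exact this
  have hTc : ((q - j * v : ℕ) : ℤ) = q - j * v := by
    rw [Nat.cast_sub (by omega)]; push_cast; ring
  have hsub : q - j * v - (q - j * v) = 0 := by omega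
  rcases hε with rfl | rfl
  · -- `ε = 1`, `i = q + j`
    have hT : (r * (q - j * v) + (q + j)) % (p * q) = 0 := by
      apply mod_of_dvd (by have := hp.one_lt; omega)
      push_cast [hTc]
      have e : (r : ℤ) * (q - j * v) + (q + j) - 0 = (q * r - q * -1) - j * (r * v - 1) := by ring
      rw [e]
      exact dvd_sub hqr' (Dvd.dvd.mul_left h _)
    refine ⟨r * (q - j * v) + (q + j), ?_⟩
    rw [two_hits hp hq hr hpq hqr v j (q - j * v) (q - j * v) (q + j) hv hvq' hj2 (by omega)
      (by omega) (by omega) (by omega) ?_ ?_]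
    · rw [hsub, coeff_pq_zero hq, ceil_B hq hpq hvq' hv hv1 hj hj1 hj2,
        cc_neg_one hpq (by rw [Nat.mod_eq_of_lt (by omega)]; omega)
          (by rw [Nat.mod_eq_of_lt (by omega)]; omega),
        cc_one hpq (by rw [hT]; have := hp.one_lt; omega)]
      norm_num
    · intro t ht
      rcases cc_ne_zero ht with h1 | ⟨h1, h2⟩
      · obtain ⟨u, hu⟩ : ∃ u, u = (r * t + (q + j)) % (p * q) := ⟨_, rfl⟩
        rw [← hu] at h1
        have hd := dvd_of_mod (p * q) (r * t + (q + j))
        rw [← hu] at hd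
        push_cast at hd
        have hs := hit_solve (i := q + j) (Or.inl rfl) h t u (by push_cast; exact hd)
        push_cast at hs
        refine ⟨(u : ℤ) - j, by linarith [Int.natCast_nonneg u], ?_, Or.inr ?_⟩
        · have : (u : ℤ) < p := by exact_mod_cast h1
          linarith
        · have e : (t : ℤ) - (q + (u - j) * v) =
              (t - 1 * (u - (q + j)) * v) - (q * v - q * -1) := by ring
          rw [e]
          exact dvd_sub hs hqv
      · obtain ⟨u, hu⟩ : ∃ u, q + u = (r * t + (q + j)) % (p * q) := ⟨_, Nat.add_sub_cancel' h1⟩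
        rw [← hu] at h2
        have hd := dvd_of_mod (p * q) (r * t + (q + j))
        rw [← hu] at hd
        push_cast at hd
        have hs := hit_solve (i := q + j) (Or.inl rfl) h t ((q : ℤ) + u) (by push_cast; exact hd)
        push_cast at hs
        refine ⟨(u : ℤ) - j, by linarith [Int.natCast_nonneg u], ?_, Or.inl ?_⟩
        · have : ((q + u : ℕ) : ℤ) < (q + p : ℕ) := by exact_mod_cast h2
          push_cast at this
          linarith
        · have e : (t : ℤ) - (u - j) * v = (t - 1 * (q + u - (q + j)) * v) := by ring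
          rw [e]
          exact hs
    · intro k hk hkj
      exact zero_B hq hpq hvq' hv hv1 hj hj1 hj2 k hk hkj
  · -- `ε = -1`, `i = p - 1 - j`
    have hic : ((p - 1 - j : ℕ) : ℤ) = p - 1 - j := by
      rw [Nat.sub_sub, Nat.cast_sub (by omega)]; push_cast; ring
    have hT : (r * (q - j * v) + (p - 1 - j)) % (p * q) = q + p - 1 := by
      apply mod_of_dvd (by have := hp.one_lt; omega)
      push_cast [hTc, hic, Nat.cast_sub (show 1 ≤ q + p by omega)]
      have e : (r : ℤ) * (q - j * v) + (p - 1 - j) - (q + p - 1) =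
        (q * r - q * - -1) - j * (r * v - -1) := by ring
      rw [e]
      exact dvd_sub hqr' (Dvd.dvd.mul_left h _)
    refine ⟨r * (q - j * v) + (p - 1 - j), ?_⟩
    rw [two_hits hp hq hr hpq hqr v j (q - j * v) (q - j * v) (p - 1 - j) hv hvq' hj2
      (by omega) (by omega) (by omega) (by omega) ?_ ?_]
    · rw [hsub, coeff_pq_zero hq, ceil_B hq hpq hvq' hv hv1 hj hj1 hj2,
        cc_neg_one (m := r * (q - j * v) + (p - 1 - j)) hpq
          (by rw [hT]; have := hp.one_lt; omega) (by rw [hT]; omega),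
        cc_one hpq (by rw [Nat.mod_eq_of_lt (by omega)]; omega)]
      norm_num
    · intro t ht
      rcases cc_ne_zero ht with h1 | ⟨h1, h2⟩
      · obtain ⟨u, hu⟩ : ∃ u, u = (r * t + (p - 1 - j)) % (p * q) := ⟨_, rfl⟩
        rw [← hu] at h1
        have hd := dvd_of_mod (p * q) (r * t + (p - 1 - j))
        rw [← hu] at hd
        push_cast [hic] at hd
        have hs := hit_solve (i := p - 1 - j) (Or.inr rfl) h t u (by rwa [hic])
        rw [hic] at hs
        have hup : (u : ℤ) < p := by exact_mod_cast h1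
        refine ⟨(p : ℤ) - 1 - u - j, by linarith, by linarith [Int.natCast_nonneg u],
          Or.inl ?_⟩
        have e : (t : ℤ) - (p - 1 - u - j) * v =
            (t - -1 * (u - (p - 1 - j)) * v) := by ring
        rw [e]
        exact hs
      · obtain ⟨u, hu⟩ : ∃ u, q + u = (r * t + (p - 1 - j)) % (p * q) :=
          ⟨_, Nat.add_sub_cancel' h1⟩
        rw [← hu] at h2
        have hd := dvd_of_mod (p * q) (r * t + (p - 1 - j))
        rw [← hu] at hd
        push_cast [hic] at hd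
        have hs := hit_solve (i := p - 1 - j) (Or.inr rfl) h t ((q : ℤ) + u) (by rwa [hic])
        rw [hic] at hs
        have hup : (u : ℤ) < p := by
          have : ((q + u : ℕ) : ℤ) < (q + p : ℕ) := by exact_mod_cast h2
          push_cast at this
          linarith
        refine ⟨(p : ℤ) - 1 - u - j, by linarith, by linarith [Int.natCast_nonneg u],
          Or.inr ?_⟩
        have e : (t : ℤ) - (q + (p - 1 - u - j) * v) =
            (t - -1 * (q + u - (p - 1 - j)) * v) - (q * v - q * -1) := by ring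
        rw [e]
        exact dvd_sub hs hqv
    · intro k hk hkj
      exact zero_B hq hpq hvq' hv hv1 hj hj1 hj2 k hk hkj

end two

end Pool.Agent.Helper8.Tern
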