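import Pool.Agent.Helper8.Tern.Coeff
import Pool.Agent.Helper8.Tern.Comb

set_option autoImplicit false

/-!
# Coefficients of `Φ_{pq}` on `[m q, (m+1) q)` and the window sums
-/

namespace Pool.Agent.Helper8.Tern

open Polynomial Finset

theorem ee_level {p q m s : ℕ} (hp : p.Prime) (hm : m < p) (h2 : s < (m + 1) * q) :
    ee p q s = ∑ l ∈ range (m + 1), if l * q ≤ s ∧ (l : ZMod p) * q = s then 1 else 0 := by
  have hsub : range (m + 1) ⊆ range p := range_subset_range.2 (by omega)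
  rw [ee, ← sum_subset hsub]
  · refine sum_congr rfl fun l _ => ?_
    by_cases h : l * q ≤ s
    · have : p ∣ s - l * q ↔ (l : ZMod p) * q = s := by
        rw [← ZMod.natCast_eq_zero_iff, Nat.cast_sub h, sub_eq_zero]
        push_cast
        exact eq_comm
      simp only [h, this]
    · simp [h]
  · intro l _ hl
    rw [mem_range, not_lt] at hl
    rw [if_neg]
    rintro ⟨h3, -⟩
    have : (m + 1) * q ≤ l * q := Nat.mul_le_mul_right _ hl
    omega

theorem coeff_level {p q m s : ℕ} [Fact p.Prime] (hq : q.Prime) (hpq : p < q)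
    (hm : m < p) (h1 : m * q ≤ s) (h2 : s < (m + 1) * q) (hs : 0 < s) :
    (cyclotomic (p * q) ℤ).coeff s =
      GG (m + 1) (q : ZMod p) (s : ZMod p) - GG (m + 1) (q : ZMod p) ((s : ZMod p) - 1) := by
  have hp : p.Prime := Fact.out
  have hp2 := hp.two_le
  rw [coeff_pq hp hq hpq.ne, if_neg hs.ne', ee_level hp hm h2, ee_level hp hm (by omega), GG, GG]
  congr 1
  · refine sum_congr rfl fun l hl => ?_
    rw [mem_range] at hl
    unfold ind
    have : l * q ≤ s := le_trans (Nat.mul_le_mul_right _ (by omega)) h1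
    simp [this]
  · refine sum_congr rfl fun l hl => ?_
    rw [mem_range] at hl
    unfold ind
    have hc : ((s - 1 : ℕ) : ZMod p) = (s : ZMod p) - 1 := by
      rw [Nat.cast_sub (by omega)]; simp
    rw [hc]
    by_cases h3 : l * q ≤ s - 1
    · simp [h3]
    · have hle : l * q ≤ s := le_trans (Nat.mul_le_mul_right _ (by omega)) h1
      have hls : l * q = s := by omega
      rw [if_neg (by tauto), if_neg]
      intro h4
      have h5 : (l : ZMod p) * q = s := by rw [← hls]; push_cast; ring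
      rw [h5] at h4
      have : (1 : ZMod p) = 0 := by linear_combination h4
      exact one_ne_zero this

theorem cc_one {p q m : ℕ} (hpq : p < q) (h : m % (p * q) < p) : cc p q m = 1 := by
  rw [cc, if_pos h, if_neg (by omega)]; ring

theorem cc_neg_one {p q m : ℕ} (hpq : p < q) (h : q ≤ m % (p * q)) (h' : m % (p * q) < q + p) :
    cc p q m = -1 := by
  rw [cc, if_neg (by omega), if_pos ⟨h, h'⟩]; ring

theorem cc_zero {p q m : ℕ} (h : ¬ m % (p * q) < p)
    (h' : ¬ (q ≤ m % (p * q) ∧ m % (p * q) < q + p)) : cc p q m = 0 := by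
  rw [cc, if_neg h, if_neg h']; ring

/-- The coefficient at `r N + i` as a sum over an arithmetic progression. -/
theorem coeff_window_sum {p q r : ℕ} (hp : p.Prime) (hq : q.Prime) (hr : r.Prime) (hpq : p < q)
    (hqr : q < r) (v V J N i : ℕ) (hv : 0 < v) (hV1 : 1 ≤ V) (hVp : V ≤ p) (hJ : 1 ≤ J)
    (hJp : J ≤ p) (hi : i < r)
    (hN1 : (V - 1) * q + (J - 1) * v ≤ N) (hN2 : N + (p - J) * v < V * q)
    (H1 : ∀ k < J, (r * (k * v) + i) % (p * q) < p)
    (H2 : ∀ t : ℕ, (r * t + i) % (p * q) < p → ∃ κ : ℤ, -((p : ℤ) - J) ≤ κ ∧ κ ≤ (J : ℤ) - 1 ∧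
      ((p : ℤ) * q) ∣ (t : ℤ) - κ * v)
    (H3 : ∀ t : ℕ, q ≤ (r * t + i) % (p * q) → (r * t + i) % (p * q) < q + p →
      ∃ κ ρ : ℤ, -((p : ℤ) - J) ≤ κ ∧ κ ≤ (J : ℤ) - 1 ∧ (V : ℤ) ≤ ρ ∧ ρ ≤ (p : ℤ) - 1 ∧
      ((p : ℤ) * q) ∣ (t : ℤ) - (q * ρ + κ * v)) :
    (cyclotomic (p * q * r) ℤ).coeff (r * N + i) =
      ∑ k ∈ range J, (cyclotomic (p * q) ℤ).coeff (N - k * v) := by
  rw [coeff_pqr hp hq hr hpq hqr N i hi]
  have hp0 : (0 : ℤ) < p := by exact_mod_cast hp.pos
  have hq0 : (0 : ℤ) < q := by exact_mod_cast hq.pos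
  have hv0 : (0 : ℤ) < v := by exact_mod_cast hv
  -- integer forms of the bounds
  have hV1' : (1 : ℤ) ≤ V := by exact_mod_cast hV1
  have hVp' : (V : ℤ) ≤ p := by exact_mod_cast hVp
  have hJ' : (1 : ℤ) ≤ J := by exact_mod_cast hJ
  have hJp' : (J : ℤ) ≤ p := by exact_mod_cast hJp
  have b1 : ((V : ℤ) - 1) * q + ((J : ℤ) - 1) * v ≤ N := by
    have := (Nat.cast_le (α := ℤ)).2 hN1
    push_cast [Nat.cast_sub hV1, Nat.cast_sub hJ] at this
    exact this
  have b2 : (N : ℤ) + ((p : ℤ) - J) * v < V * q := by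
    have := (Nat.cast_lt (α := ℤ)).2 hN2
    push_cast [Nat.cast_sub hJp] at this
    exact this
  have b3 : 0 ≤ ((p : ℤ) - J) * v := mul_nonneg (by linarith) hv0.le
  have b4 : 0 ≤ ((J : ℤ) - 1) * v := mul_nonneg (by linarith) hv0.le
  have b5 : (V : ℤ) * q ≤ p * q := mul_le_mul_of_nonneg_right hVp' hq0.le
  have b6 : ((V : ℤ) - 1) * q = V * q - q := by ring
  have b7 : (0 : ℤ) ≤ ((V : ℤ) - 1) * q := mul_nonneg (by linarith) hq0.le
  have hκ : ∀ κ : ℤ, -((p : ℤ) - J) ≤ κ → κ ≤ (J : ℤ) - 1 →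
      -(((p : ℤ) - J) * v) ≤ κ * v ∧ κ * v ≤ ((J : ℤ) - 1) * v := by
    intro κ h1 h2
    constructor
    · have := mul_le_mul_of_nonneg_right h1 hv0.le
      linarith
    · exact mul_le_mul_of_nonneg_right h2 hv0.le
  have key : ∀ t ∈ range (N + 1), (cyclotomic (p * q) ℤ).coeff (N - t) * cc p q (r * t + i) =
      if t ∈ (range J).image (fun k => k * v) then (cyclotomic (p * q) ℤ).coeff (N - t) else 0 := by
    intro t ht
    rw [mem_range] at ht
    have ht' : (t : ℤ) ≤ N := by exact_mod_cast Nat.lt_succ_iff.1 ht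
    have ht0 : (0 : ℤ) ≤ t := by positivity
    by_cases hmem : t ∈ (range J).image (fun k => k * v)
    · rw [if_pos hmem]
      rw [mem_image] at hmem
      obtain ⟨k, hk, rfl⟩ := hmem
      rw [cc_one hpq (H1 k (mem_range.1 hk)), mul_one]
    · rw [if_neg hmem, cc_zero, mul_zero]
      · intro h
        obtain ⟨κ, hκ1, hκ2, hd⟩ := H2 t h
        obtain ⟨hκ3, hκ4⟩ := hκ κ hκ1 hκ2
        have h0 : (t : ℤ) - κ * v = 0 := by
          apply Int.eq_zero_of_abs_lt_dvd hd
          rw [abs_lt]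
          constructor <;> linarith
        have hκ0 : 0 ≤ κ := by
          by_contra hneg
          push Not at hneg
          have : κ * v < 0 := mul_neg_of_neg_of_pos hneg hv0
          linarith
        obtain ⟨k, rfl⟩ := Int.eq_ofNat_of_zero_le hκ0
        apply hmem
        rw [mem_image]
        refine ⟨k, ?_, ?_⟩
        · rw [mem_range]; omega
        · have : (t : ℤ) = ((k * v : ℕ) : ℤ) := by push_cast; linarith
          exact (by exact_mod_cast this.symm)
      · rintro ⟨h, h'⟩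
        obtain ⟨κ, ρ, hκ1, hκ2, hρ1, hρ2, hd⟩ := H3 t h h'
        obtain ⟨hκ3, hκ4⟩ := hκ κ hκ1 hκ2
        have c1 : (q : ℤ) * V ≤ q * ρ := mul_le_mul_of_nonneg_left hρ1 hq0.le
        have c2 : (q : ℤ) * ρ ≤ q * (p - 1) := mul_le_mul_of_nonneg_left hρ2 hq0.le
        have c3 : (q : ℤ) * (p - 1) = p * q - q := by ring
        have c4 : (q : ℤ) * V = V * q := by ring
        have h0 : (t : ℤ) - (q * ρ + κ * v) = 0 := by
          apply Int.eq_zero_of_abs_lt_dvd hd
          rw [abs_lt]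
          constructor <;> linarith
        linarith
  rw [sum_congr rfl key, ← sum_filter, filter_mem_eq_inter]
  have hinter : range (N + 1) ∩ (range J).image (fun k => k * v) =
      (range J).image (fun k => k * v) := by
    rw [inter_eq_right]
    intro t ht
    rw [mem_image] at ht
    obtain ⟨k, hk, rfl⟩ := ht
    rw [mem_range] at hk ⊢
    have : k * v ≤ (J - 1) * v := Nat.mul_le_mul_right _ (by omega)
    omega
  rw [hinter, sum_image]
  intro a _ b _ hab
  exact Nat.eq_of_mul_eq_mul_right hv hab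

end Pool.Agent.Helper8.Tern
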